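import Mathlib

/-!
# The commutative part of the computation
-/

set_option autoImplicit false

namespace Q6.FreeAct

theorem comm_part_aux {B : Type*} [CommRing B] (t2 : ∀ r : B, 2 * r = 0 → r = 0)
    (t5 : ∀ r : B, 5 * r = 0 → r = 0) (X X' E : B) (hE : E * E = 2 * E + 4) (hX : X * X' = 1)
    (P1 : X' * ((X' - E) * X' + (2 - E) * (X - E)) = (X - E) * X + (2 - E) * (X' - E))
    (P2 : E * ((X - E) - (X' - E)) = (2 - E) * ((X - E) * X - (X' - E) * X'))
    (P4 : X * (25 - E * ((X - E) + (X' - E)) - 2 * ((X - E) * (X' - E)) -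
      2 * (X' * ((X - E) + (2 - E) * (X' - E)))) =
      2 * (X' * ((X - E) * X + (2 - E) * (X' - E)))) :
    X = 1 ∧ X' = 1 ∧ 2 * E = 1 := by
  have hE' : E ^ 2 - 2 * E - 4 = 0 := by linear_combination hE
  have hX' : X * X' - 1 = 0 := by linear_combination hX
  have g : (X - X') * ((2 - E) + 2 * (X + X')) = 0 := by
    apply t2
    linear_combination E * P2 + (-X ^ 2 + X * E - X + X' ^ 2 - X' * E + X') * hE'
  have P4r : E * X ^ 2 + 19 * X + (5 * E - 8) - (2 * (2 - E) + 8) * X' - 2 * (2 - E) * X' ^ 2 = 0 := by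
    linear_combination P4 + (6 * X + (-2) * X' * E + 4 * X' + 2 * E ^ 2 + (-9) * E) * hX' +
      (2 * X' + 2) * hE'
  have P1r : X ^ 2 - E * X + ((2 - E) - 4) * X' + 4 - X' ^ 3 + E * X' ^ 2 - (2 - E) = 0 := by
    linear_combination (-1 : B) * P1 + (-E + 2) * hX' + (X' - 1) * hE'
  have k : 100 * ((2 - E) * (X + 1) * (X - X')) = 0 := by
    linear_combination (8*X^3 + (-8)*X^2*X') * P4r +
      ((-4)*X^3*E + (-2)*X^2*E^2 + 4*X^2*E + (-76)*X^2 + (-1)*X*E^3 + 4*X*E^2 + (-58)*X*E + 108*X) * g +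
      (8*X^3*E + (-24)*X^2*X'*E + 32*X^2*X' + 4*X^2*E^2 + (-24)*X^2*E + 248*X^2 + 16*X*X'^2*E + (-32)*X*X'^2 + (-4)*X*X'*E^2 + 24*X*X'*E + (-248)*X*X' + 2*X*E^3 + (-8)*X*E^2 + 100*X*E + (-184)*X + (-2)*X'*E^3 + 8*X'*E^2 + (-100)*X'*E + 184*X' + E^4 + (-6)*E^3 + 62*E^2 + (-100)*E + (-232)) * hX' +
      ((-1)*X^2*E^2 + 4*X^2*E + (-58)*X^2 + 2*X*E + (-4)*X + (-2)*X'*E + 4*X' + E^2 + (-4)*E + 58) * hE'
  have k1 : (X + 1) * (X - X') = 0 := by
    apply t2; apply t2; apply t2; apply t2; apply t5; apply t5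
    linear_combination (-E) * k - 100 * (X + 1) * (X - X') * hE'
  have k2 : (X ^ 2 - 1) * (X + 1) = 0 := by linear_combination X * k1 + (X + 1) * hX'
  have k3a : (X ^ 2 - 1) * ((2 - E) + 2 * (X + X')) = 0 := by
    linear_combination X * g + ((2 - E) + 2 * (X + X')) * hX'
  have k3b : (X ^ 2 - 1) * ((2 - E) * X + 2 * X ^ 2 + 2) = 0 := by
    linear_combination X * k3a - 2 * (X ^ 2 - 1) * hX'
  have k3 : (X ^ 2 - 1) * (2 + E) = 0 := by
    linear_combination k3b - (2 * X + (2 - E) - 2) * k2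
  have k4 : X ^ 2 - 1 = 0 := by
    apply t2; apply t2
    linear_combination (4 - E) * k3 + (X ^ 2 - 1) * hE'
  have k5 : X' = X := by linear_combination X * hX' - X' * k4
  subst k5
  have k6 : (3 + 2 * E) * (1 - X') = 0 := by
    linear_combination P1r + (X' - (1 + E)) * k4
  have k7 : X' = 1 := by
    have : 1 - X' = 0 := by
      apply t5
      linear_combination (7 - 2 * E) * k6 + 4 * (1 - X') * hE'
    linear_combination -this
  subst k7
  refine ⟨rfl, rfl, ?_⟩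
  have : 2 * E - 1 = 0 := by
    apply t5
    linear_combination P4r
  linear_combination this

/-- The commutative computation for the case of two minus signs. -/
theorem comm_part {B : Type*} [CommRing B] (t2 : ∀ r : B, 2 * r = 0 → r = 0)
    (t5 : ∀ r : B, 5 * r = 0 → r = 0) (a a' E : B) (hE : E * E = 2 * E + 4)
    (P1 : (a' + E) * (a' * (a' + E) + (2 - E) * a) = a * (a + E) + (2 - E) * a')
    (P2 : E * (a - a') = (2 - E) * (a * (a + E) - a' * (a' + E)))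
    (P3 : ((a + E) * (a' + E) - 1) * (a' + (2 - E) * a) = 0)
    (P3' : ((a + E) * (a' + E) - 1) * (a + (2 - E) * a') = 0)
    (P4 : (a + E) * (25 - E * (a + a') - 2 * (a * a') - 2 * ((a' + E) * (a + (2 - E) * a'))) =
      2 * ((a' + E) * (a * (a + E) + (2 - E) * a'))) :
    a + E = 1 ∧ a' + E = 1 ∧ 2 * E = 1 := by
  have hE' : E ^ 2 - 2 * E - 4 = 0 := by linear_combination hE
  have pa : ((a + E) * (a' + E) - 1) * a = 0 := by
    apply t5
    linear_combination ((-1)*E^2 + 1) * P3' + ((-1)*E^3 + 2*E^2 + E + (-2)) * P3 +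
      ((-1)*a^2*a'*E^2 + 2*a^2*a'*E + (-2)*a^2*a' + (-1)*a^2*E^3 + 2*a^2*E^2 + (-2)*a^2*E + (-1)*a*a'*E^3 + 2*a*a'*E^2 + (-2)*a*a'*E + (-1)*a*E^4 + 2*a*E^3 + (-1)*a*E^2 + (-2)*a*E + 2*a) * hE'
  have pb : ((a + E) * (a' + E) - 1) * a' = 0 := by
    apply t5
    linear_combination ((-1)*E^2 + 1) * P3 + ((-1)*E^3 + 2*E^2 + E + (-2)) * P3' +
      ((-1)*a*a'^2*E^2 + 2*a*a'^2*E + (-2)*a*a'^2 + (-1)*a*a'*E^3 + 2*a*a'*E^2 + (-2)*a*a'*E + (-1)*a'^2*E^3 + 2*a'^2*E^2 + (-2)*a'^2*E + (-1)*a'*E^4 + 2*a'*E^3 + (-1)*a'*E^2 + (-2)*a'*E + 2*a') * hE'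
  have pA : ((a + E) * (a' + E) - 1) * (a + E) = 0 := by
    apply t5; apply t5
    linear_combination ((a + E) * (a' + E) - 1) * P4 +
      (6*a*a' + 5*a*E + (-2)*a'^2*E + 4*a'^2 + (-2)*a'*E^2 + 11*a'*E + 5*E^2) * pa +
      ((-2)*a'*E^2 + 2*a'*E + 4*a' + (-2)*E^3 + 3*E^2 + 4*E) * pb
  have p0 : (a + E) * (a' + E) = 1 := by
    have : (a + E) * (a' + E) - 1 = 0 := by
      apply t2; apply t2
      linear_combination (E - 2) * pA - (E - 2) * pa - ((a + E) * (a' + E) - 1) * hE'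
    linear_combination this
  have := comm_part_aux t2 t5 (a + E) (a' + E) E hE p0
    (by simpa only [add_sub_cancel_right] using P1)
    (by simpa only [add_sub_cancel_right] using P2)
    (by simpa only [add_sub_cancel_right] using P4)
  exact this

end Q6.FreeAct
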