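import Mathlib
import Pool.Agent.Q6.FreeAct.Comm

/-!
# The two noncommutative computations
-/

set_option autoImplicit false

namespace Q6.FreeAct

variable {R : Type*} [Ring R]


/-- Two commuting elements and a central-like third one: transfer to a commutative subring. -/
theorem comm_transfer (t2 : ∀ r : R, 2 * r = 0 → r = 0)
    (t5 : ∀ r : R, 5 * r = 0 → r = 0) (a a' E : R) (hE : E * E = 2 * E + 4)
    (caa : a * a' = a' * a) (caE : a * E = E * a) (caE' : a' * E = E * a')
    (P1 : (a' + E) * (a' * (a' + E) + (2 - E) * a) = a * (a + E) + (2 - E) * a')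
    (P2 : E * (a - a') = (2 - E) * (a * (a + E) - a' * (a' + E)))
    (P3 : ((a + E) * (a' + E) - 1) * (a' + (2 - E) * a) = 0)
    (P3' : ((a + E) * (a' + E) - 1) * (a + (2 - E) * a') = 0)
    (P4 : (a + E) * (25 - E * (a + a') - 2 * (a * a') - 2 * ((a' + E) * (a + (2 - E) * a'))) =
      2 * ((a' + E) * (a * (a + E) + (2 - E) * a'))) :
    a + E = 1 ∧ a' + E = 1 ∧ 2 * E = 1 := by
  let s : Set R := {a, a', E}
  have hs : ∀ x ∈ s, ∀ y ∈ s, x * y = y * x := by
    rintro x (rfl | rfl | rfl) y (rfl | rfl | rfl) <;> first | rfl | assumption | (symm; assumption)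
  letI : CommRing (Subring.closure s) := Subring.closureCommRingOfComm hs
  let α : Subring.closure s := ⟨a, Subring.subset_closure (by simp [s])⟩
  let α' : Subring.closure s := ⟨a', Subring.subset_closure (by simp [s])⟩
  let ε : Subring.closure s := ⟨E, Subring.subset_closure (by simp [s])⟩
  have := comm_part (B := Subring.closure s)
    (fun r hr => Subtype.ext (t2 r.1 (congrArg Subtype.val hr)))
    (fun r hr => Subtype.ext (t5 r.1 (congrArg Subtype.val hr))) α α' ε
    (Subtype.ext hE) (Subtype.ext P1) (Subtype.ext P2) (Subtype.ext P3) (Subtype.ext P3')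
    (Subtype.ext P4)
  obtain ⟨h1, h2, h3⟩ := this
  exact ⟨congrArg Subtype.val h1, congrArg Subtype.val h2, congrArg Subtype.val h3⟩

theorem case_two_abs (t2 : ∀ r : R, 2 * r = 0 → r = 0)
    (t5 : ∀ r : R, 5 * r = 0 → r = 0) (a a' b c c' d d' E : R) (hE : E * E = 2 * E + 4)
    (caE : a * E = E * a) (caE' : a' * E = E * a')
    (hcE : c * E = (2 - E) * c) (hdE : d * E = (2 - E) * d)
    (H4 : c * (a + E) = -c') (H4' : c' * (a' + E) = -c)
    (H14' : (a' + E) * c = -(c' * (a + E))) (H6 : (a + E) * c = -((a' + E) * c'))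
    (H7 : (a + E) * d = -d') (H7' : (a' + E) * d' = -d)
    (H15 : (a + E) * d' = -(d * (a' + E)))
    (H11 : d' * c' = -(a + (2 - E) * a')) (H11' : d * c = -(a' + (2 - E) * a))
    (H12 : c' * d' = -(a * (a + E) + (2 - E) * a'))
    (H12' : c * d = -(a' * (a' + E) + (2 - E) * a))
    (H10 : 2 * (b * b) = -25 - E * (a + a'))
    (H13 : a * a' - b * b + c * d' + d * c' = 25)
    (H13' : a' * a - b * b + c' * d + d' * c = 25) : (1 : R) = 0 := by
  have s1 : (a' + E) * (c * d) = c' * d' := by
    rw [← mul_assoc, H14', neg_mul, mul_assoc, H7]; noncomm_ring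
  have s2 : (c * d) * (a' + E) = c' * d' := by
    rw [mul_assoc, ← neg_eq_iff_eq_neg.2 (by rw [H15] : (a + E) * d' = -(d * (a' + E))), mul_neg, ← mul_assoc, H4]
    noncomm_ring
  have P1 : (a' + E) * (a' * (a' + E) + (2 - E) * a) = a * (a + E) + (2 - E) * a' := by
    rw [H12, H12'] at s1
    linear_combination (norm := (noncomm_ring <;> norm_num [zsmul_eq_mul] <;> noncomm_ring)) (-1 : R) * s1
  have P1'' : (a' * (a' + E) + (2 - E) * a) * (a' + E) = a * (a + E) + (2 - E) * a' := by
    rw [H12, H12'] at s2
    linear_combination (norm := (noncomm_ring <;> norm_num [zsmul_eq_mul] <;> noncomm_ring)) (-1 : R) * s2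
  have hEF : E * (2 - E) = -4 := by
    linear_combination (norm := (noncomm_ring <;> norm_num [zsmul_eq_mul] <;> noncomm_ring)) (-1 : R) * hE
  have caa : a * a' = a' * a := by
    have h1 : (2 - E) * (a' * a - a * a') = 0 := by
      have h2 : (a' + E) * (a' * (a' + E) + (2 - E) * a) = (a' * (a' + E) + (2 - E) * a) * (a' + E) :=
        P1.trans P1''.symm
      linear_combination (norm := (noncomm_ring <;> norm_num [zsmul_eq_mul] <;> noncomm_ring)) h2 + caE' * (a' + E + a) + (2 - E) * caE
    have h2 : a' * a - a * a' = 0 := by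
      apply t2; apply t2
      linear_combination (norm := (noncomm_ring <;> norm_num [zsmul_eq_mul] <;> noncomm_ring)) (-E) * h1 + hEF * (a' * a - a * a')
    linear_combination (norm := (noncomm_ring <;> norm_num [zsmul_eq_mul] <;> noncomm_ring)) (-1 : R) * h2
  have hc' : c' * d = c * d' := by
    linear_combination (norm := (noncomm_ring <;> norm_num [zsmul_eq_mul] <;> noncomm_ring)) H4 * d - c * H7
  have hdc' : d * c' = (a' + E) * (a + (2 - E) * a') := by
    linear_combination (norm := (noncomm_ring <;> norm_num [zsmul_eq_mul] <;> noncomm_ring)) H7' * c' - (a' + E) * H11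
  have hd'c : d' * c = (a + E) * (a' + (2 - E) * a) := by
    linear_combination (norm := (noncomm_ring <;> norm_num [zsmul_eq_mul] <;> noncomm_ring)) H7 * c - (a + E) * H11'
  have P2 : E * (a - a') = (2 - E) * (a * (a + E) - a' * (a' + E)) := by
    linear_combination (norm := (noncomm_ring <;> norm_num [zsmul_eq_mul] <;> noncomm_ring)) H13 - H13' + hc' - hdc' + hd'c + (2 - E) * caE' + caE' * a' -
      (2 - E) * caE - caE * a
  have hAA : (a + E) * (a' + E) = (a' + E) * (a + E) := by
    linear_combination (norm := (noncomm_ring <;> norm_num [zsmul_eq_mul] <;> noncomm_ring)) caa + caE - caE'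
  have P3 : ((a + E) * (a' + E) - 1) * (a' + (2 - E) * a) = 0 := by
    linear_combination (norm := (noncomm_ring <;> norm_num [zsmul_eq_mul] <;> noncomm_ring)) ((a + E) * (a' + E) - 1) * H11' - hAA * (d * c) -
      (a' + E) * H7 * c + H7' * c
  have P3' : ((a + E) * (a' + E) - 1) * (a + (2 - E) * a') = 0 := by
    linear_combination (norm := (noncomm_ring <;> norm_num [zsmul_eq_mul] <;> noncomm_ring)) ((a + E) * (a' + E) - 1) * H11 - (a + E) * H7' * c' + H7 * c'
  have hy : 2 * (c * d') = 25 - E * (a + a') - 2 * (a * a') - 2 * ((a' + E) * (a + (2 - E) * a')) := by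
    linear_combination (norm := (noncomm_ring <;> norm_num [zsmul_eq_mul] <;> noncomm_ring)) 2 * H13 + H10 - 2 * hdc'
  have P4 : (a + E) * (25 - E * (a + a') - 2 * (a * a') - 2 * ((a' + E) * (a + (2 - E) * a'))) =
      2 * ((a' + E) * (a * (a + E) + (2 - E) * a')) := by
    linear_combination (norm := (noncomm_ring <;> norm_num [zsmul_eq_mul] <;> noncomm_ring)) (-1 : R) * ((a + E) * hy) + 2 * (H6 * d' - (a' + E) * H12)
  obtain ⟨hA, hA', h2E⟩ := comm_transfer t2 t5 a a' E hE caa caE caE' P1 P2 P3 P3' P4
  have hc0 : c = 0 := by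
    apply t2
    linear_combination (norm := (noncomm_ring <;> norm_num [zsmul_eq_mul] <;> noncomm_ring)) (-2 : R) * hcE + c * h2E + h2E * c
  have h6 : (6 : R) = 0 := by
    rw [hc0, mul_zero] at H11'
    have e1 : a = 1 - E := by linear_combination (norm := (noncomm_ring <;> norm_num [zsmul_eq_mul] <;> noncomm_ring)) hA
    have e2 : a' = 1 - E := by linear_combination (norm := (noncomm_ring <;> norm_num [zsmul_eq_mul] <;> noncomm_ring)) hA'
    rw [e1, e2] at H11'
    linear_combination (norm := (noncomm_ring <;> norm_num [zsmul_eq_mul] <;> noncomm_ring)) H11' - hE + h2E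
  have h19 : (19 : R) = 0 := by
    linear_combination (norm := (noncomm_ring <;> norm_num [zsmul_eq_mul] <;> noncomm_ring)) (-4 : R) * hE + (2 * E) * h2E - 3 * h2E
  linear_combination (norm := (noncomm_ring <;> norm_num [zsmul_eq_mul] <;> noncomm_ring)) h19 - 3 * h6

/-- The computation for the case without minus signs. -/
theorem case_zero_abs (t5 : ∀ r : R, 5 * r = 0 → r = 0) (a a' b c c' d d' : R)
    (H4 : c * a = -(5 * c'))
    (H14 : a * c' = -(c * a')) (H14' : a' * c = -(c' * a)) (H6 : a * c = -(a' * c'))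
    (H7 : a * d = -(5 * d')) (H7' : a' * d' = -(5 * d))
    (H11 : d' * c' = -(5 * a)) (H11' : d * c = -(5 * a'))
    (H12 : c' * d' = -(a * a)) (H12' : c * d = -(a' * a'))
    (H10 : 2 * (b * b) = -25)
    (H13 : a * a' - b * b + c * d' + d * c' = 25) : (1 : R) = 0 := by
  have n5 : ∀ w : R, w * 5 = 5 * w := fun w => (Nat.cast_commute 5 w).eq.symm
  have s1 : a' * (a' * a') = 5 * (a * a) := by
    have e : a' * (c * d) = 5 * (c' * d') := by
      rw [← mul_assoc, H14', neg_mul, mul_assoc, H7, mul_neg, neg_neg, ← mul_assoc, n5, mul_assoc]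
    rw [H12, H12'] at e
    linear_combination (norm := (noncomm_ring <;> norm_num [zsmul_eq_mul] <;> noncomm_ring)) (-1 : R) * e
  have s3 : a' * a * a' = 25 * a' := by
    have e : a' * a * d = 25 * d := by
      rw [mul_assoc, H7, mul_neg, ← mul_assoc, n5, mul_assoc, H7']
      noncomm_ring <;> norm_num [zsmul_eq_mul] <;> noncomm_ring
    have e2 := congrArg (· * c) e
    simp only [mul_assoc, H11'] at e2
    have n5' : a' * (a * (5 * a')) = 5 * (a' * (a * a')) := by
      rw [← mul_assoc a, n5, mul_assoc, ← mul_assoc a', n5, mul_assoc]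
    rw [mul_neg, mul_neg, n5'] at e2
    have e3 : 5 * (a' * a * a' - 25 * a') = 0 := by
      linear_combination (norm := (noncomm_ring <;> norm_num [zsmul_eq_mul] <;> noncomm_ring)) (-1 : R) * e2
    have e4 := t5 _ e3
    linear_combination (norm := (noncomm_ring <;> norm_num [zsmul_eq_mul] <;> noncomm_ring)) e4
  have s4 : a * a' * a = 25 * a := by
    have e : a * a' * d' = 25 * d' := by
      rw [mul_assoc, H7', mul_neg, ← mul_assoc, n5, mul_assoc, H7]
      noncomm_ring <;> norm_num [zsmul_eq_mul] <;> noncomm_ring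
    have e2 := congrArg (· * c') e
    simp only [mul_assoc, H11] at e2
    have n5' : a * (a' * (5 * a)) = 5 * (a * (a' * a)) := by
      rw [← mul_assoc a', n5, mul_assoc, ← mul_assoc a, n5, mul_assoc]
    rw [mul_neg, mul_neg, n5'] at e2
    have e3 : 5 * (a * a' * a - 25 * a) = 0 := by
      linear_combination (norm := (noncomm_ring <;> norm_num [zsmul_eq_mul] <;> noncomm_ring)) (-1 : R) * e2
    have e4 := t5 _ e3
    linear_combination (norm := (noncomm_ring <;> norm_num [zsmul_eq_mul] <;> noncomm_ring)) e4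
  have hy : a * (c * d') = a' * (a * a) := by
    rw [← mul_assoc, H6, neg_mul, mul_assoc, H12]; noncomm_ring
  have hdc' : d * c' = a' * a := by
    have : 5 * (d * c' - a' * a) = 0 := by
      have e : a' * (d' * c') = -(5 * (d * c')) := by
        rw [← mul_assoc, H7']; noncomm_ring
      rw [H11, mul_neg, ← mul_assoc, n5, mul_assoc] at e
      linear_combination (norm := (noncomm_ring <;> norm_num [zsmul_eq_mul] <;> noncomm_ring)) e
    have := t5 _ this
    linear_combination (norm := (noncomm_ring <;> norm_num [zsmul_eq_mul] <;> noncomm_ring)) this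
  have k1 : 125 * a = -4 * (a' * (a' * (a' * a'))) := by
    have e : 2 * (a * (c * d')) = 25 * a - 2 * (a * (a * a')) - 2 * (a * a' * a) := by
      linear_combination (norm := (noncomm_ring <;> norm_num [zsmul_eq_mul] <;> noncomm_ring)) (2 * a) * H13 - a * (2 * hdc') + a * H10
    rw [hy, s4] at e
    linear_combination (norm := (noncomm_ring <;> norm_num [zsmul_eq_mul] <;> noncomm_ring)) 5 * e + 2 * (a' * s1) + 2 * (s1 * a')
  have caa : a * a' = a' * a := by
    have : 5 * (5 * (5 * (a * a' - a' * a))) = 0 := by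
      linear_combination (norm := (noncomm_ring <;> norm_num [zsmul_eq_mul] <;> noncomm_ring)) k1 * a' - a' * k1
    have := t5 _ (t5 _ (t5 _ this))
    linear_combination (norm := (noncomm_ring <;> norm_num [zsmul_eq_mul] <;> noncomm_ring)) this
  have a0 : a = 0 := by
    apply t5; apply t5; apply t5; apply t5
    linear_combination (norm := (noncomm_ring <;> norm_num [zsmul_eq_mul] <;> noncomm_ring)) k1 - 4 * (s1 * a') - 20 * (a * caa) - 20 * s4
  subst a0
  have a0' : a' = 0 := by
    apply t5; apply t5
    linear_combination (norm := (noncomm_ring <;> norm_num [zsmul_eq_mul] <;> noncomm_ring)) (-1 : R) * s3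
  subst a0'
  have c0 : c' = 0 := by
    apply t5
    linear_combination (norm := (noncomm_ring <;> norm_num [zsmul_eq_mul] <;> noncomm_ring)) H4
  have d0 : d' = 0 := by
    apply t5
    linear_combination (norm := (noncomm_ring <;> norm_num [zsmul_eq_mul] <;> noncomm_ring)) H7
  subst c0 d0
  apply t5; apply t5
  linear_combination (norm := (noncomm_ring <;> norm_num [zsmul_eq_mul] <;> noncomm_ring)) (-2 : R) * H13 - H10

end Q6.FreeAct
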