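import Mathlib
import Pool.Agent.Q6.FreeAct.Alg
import Pool.Agent.Q6.FreeAct.Abs

/-!
# The two impossible sign patterns
-/

set_option autoImplicit false

namespace Q6.FreeAct

variable {R : Type*} [Ring R]

/-- the component of type `l` (times five) -/
def cmp (Y : ZMod 5 → R) (l : ZMod 5) (x : R) : R := ∑ i, Y (-l * i) * x * Y i

theorem cmp_typ {Y : ZMod 5 → R} (h : Five Y) (l : ZMod 5) (x : R) : Typ Y l (cmp Y l x) := by
  intro k
  unfold cmp
  rw [Finset.sum_mul, Finset.mul_sum]
  refine Fintype.sum_equiv (Equiv.addRight k) _ _ fun i => ?_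
  simp only [Equiv.coe_addRight, mul_assoc]
  rw [← h.add, ← mul_assoc (Y (l * k)), ← h.add]
  congr 2
  ring

theorem cmp_sum {Y : ZMod 5 → R} (h : Five Y) (x : R) :
    cmp Y 1 x + cmp Y 4 x + cmp Y 2 x + cmp Y 3 x = 5 * x := by
  have h1 : ∑ l, cmp Y l x = 5 * x := by
    unfold cmp
    rw [Finset.sum_comm]
    have : ∀ i : ZMod 5, ∑ l : ZMod 5, Y (-l * i) * x * Y i = (if i = 0 then 5 else 0) * x * Y i := by
      intro i
      rw [← Finset.sum_mul, ← Finset.sum_mul]
      congr 2
      have : ∀ l : ZMod 5, -l * i = -i * l := fun l => by ring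
      simp only [this, h.sum_if, neg_eq_zero]
    simp only [this]
    simp [h.zero]
  have h0 : cmp Y 0 x = 0 := by
    unfold cmp
    simp only [neg_zero, zero_mul, h.zero, one_mul]
    rw [← Finset.mul_sum, sum5, h.sum, mul_zero]
  rw [sum5, h0] at h1
  rw [← h1]; abel

theorem prods {Y : ZMod 5 → R} (h : Five Y) {a b c d a' b' c' d' : R}
    (ha : Typ Y 1 a) (hb : Typ Y 4 b) (hc : Typ Y 2 c) (hd : Typ Y 3 d)
    (ha' : Typ Y 1 a') (hb' : Typ Y 4 b') (hc' : Typ Y 2 c') (hd' : Typ Y 3 d')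
    (hp : (a + b + c + d) * (a' + b' + c' + d') = 25) :
    a * a' + b * b' + c * d' + d * c' = 25 ∧ a * c' + c * a' + b * d' + d * b' = 0 ∧
      a * d' + d * a' + b * c' + c * b' = 0 := by
  let w : ZMod 5 → R := ![0, a * a' + b * b' + c * d' + d * c' + -25,
    a * c' + c * a' + b * d' + d * b', a * d' + d * a' + b * c' + c * b',
    a * b' + b * a' + c * c' + d * d']
  have h25 : Typ Y 1 (-25 : R) := by
    intro k
    rw [one_mul, neg_mul, mul_neg, Typ.num k, one_mul]
  have hw : ∀ l, Typ Y l (w l) := by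
    intro l
    fin_cases l
    · exact Typ.zero
    · show Typ Y 1 (a * a' + b * b' + c * d' + d * c' + -25)
      repeat' first | assumption | exact Typ.mul (by assumption) (by assumption) (by decide) | apply Typ.add
    · show Typ Y 2 (a * c' + c * a' + b * d' + d * b')
      repeat' first | assumption | exact Typ.mul (by assumption) (by assumption) (by decide) | apply Typ.add
    · show Typ Y 3 (a * d' + d * a' + b * c' + c * b')
      repeat' first | assumption | exact Typ.mul (by assumption) (by assumption) (by decide) | apply Typ.add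
    · show Typ Y 4 (a * b' + b * a' + c * c' + d * d')
      repeat' first | assumption | exact Typ.mul (by assumption) (by assumption) (by decide) | apply Typ.add
  have h0 : ∑ l, w l = 0 := by
    rw [sum5]
    show (0 : R) + (a * a' + b * b' + c * d' + d * c' + -25) +
      (a * c' + c * a' + b * d' + d * b') + (a * d' + d * a' + b * c' + c * b') +
      (a * b' + b * a' + c * c' + d * d') = 0
    rw [← sub_eq_zero] at hp
    refine Eq.trans ?_ hp
    simp only [add_mul, mul_add]
    abel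
  have h1 := sep h w hw h0
  refine ⟨?_, h1 2, h1 3⟩
  have := h1 1
  change a * a' + b * b' + c * d' + d * c' + -25 = 0 at this
  rwa [add_neg_eq_zero] at this

/-- pattern without minus signs -/
theorem case_zero {Y : ZMod 5 → R} (h : Five Y) (x u : R) (hxu : x * u = 1) (hux : u * x = 1)
    (Q : ∀ j, 1 + x * Y j + x * Y j * (x * Y j) + Y (-j) * u + Y (-j) * u * (Y (-j) * u) = 0) :
    (1 : R) = 0 := by
  have hX := cmp_sum h x
  have hU := cmp_sum h u
  have ha := cmp_typ h 1 x
  have hb := cmp_typ h 4 x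
  have hc := cmp_typ h 2 x
  have hd := cmp_typ h 3 x
  have ha' := cmp_typ h 1 u
  have hb' := cmp_typ h 4 u
  have hc' := cmp_typ h 2 u
  have hd' := cmp_typ h 3 u
  generalize cmp Y 1 x = a at *
  generalize cmp Y 4 x = b at *
  generalize cmp Y 2 x = c at *
  generalize cmp Y 3 x = d at *
  generalize cmp Y 1 u = a' at *
  generalize cmp Y 4 u = b' at *
  generalize cmp Y 2 u = c' at *
  generalize cmp Y 3 u = d' at *
  have n5 : ∀ w : R, w * 5 = 5 * w := fun w => (Nat.cast_commute 5 w).eq.symm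
  have hG : Typ Y 1 (5 : R) := by intro k; rw [one_mul, n5]
  have h0 : Typ Y 1 (0 : R) := Typ.zero
  have rel := relations h ha hb hc hd ha' hb' hc' hd' h0 h0 hG (by
    intro j
    rw [hX, hU]
    simp only [zero_mul, h.zero, mul_zero, add_zero, one_mul]
    have := congrArg (fun z => 25 * z) (Q j)
    simp only [mul_zero] at this
    rw [← this]
    have e1 : 5 * x * Y j * (5 * x * Y j) = 25 * (x * Y j * (x * Y j)) := by
      have : x * Y j * (5 * (x * Y j)) = 5 * (x * Y j * (x * Y j)) := by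
        rw [← mul_assoc, n5, mul_assoc]
      rw [mul_assoc 5, mul_assoc 5, this, ← mul_assoc]; norm_num
    have e2 : Y (-j) * (5 * u) = 5 * (Y (-j) * u) := by rw [← mul_assoc, n5, mul_assoc]
    have e3 : 5 * (Y (-j) * u) * (5 * (Y (-j) * u)) = 25 * (Y (-j) * u * (Y (-j) * u)) := by
      have : (Y (-j) * u) * (5 * (Y (-j) * u)) = 5 * (Y (-j) * u * (Y (-j) * u)) := by
        rw [← mul_assoc, n5, mul_assoc]
      rw [mul_assoc 5, this, ← mul_assoc]; norm_num
    rw [e1, e2, e3]
    simp only [mul_add, mul_assoc]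
    rw [← mul_assoc 5 5, ← mul_assoc 5 5]
    norm_num)
  obtain ⟨r01, r02, r03, r04, r11, r12, r13, r14, r21, r22, r23, r24, r31, r32, r33, r34, r41, r42,
    r43, r44⟩ := rel
  have hbb : b' = -b := by
    have : 5 * (b + b') = 0 := by rw [mul_add]; exact r44
    have := h.tf _ this
    rw [eq_neg_iff_add_eq_zero, add_comm, this]
  subst hbb
  have hp1 := prods h ha hb hc hd ha' hb' hc' hd' (by
    rw [hX, hU, mul_assoc, ← mul_assoc x, n5, mul_assoc 5 x, hxu, mul_one]; norm_num)
  have hp2 := prods h ha' hb' hc' hd' ha hb hc hd (by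
    rw [hX, hU, mul_assoc, ← mul_assoc u, n5, mul_assoc 5 u, hux, mul_one]; norm_num)
  obtain ⟨p1, p2, -⟩ := hp1
  obtain ⟨-, q2, -⟩ := hp2
  refine case_zero_abs h.tf a a' b c c' d d' ?_ ?_ ?_ ?_ ?_ ?_ ?_ ?_ ?_ ?_ ?_ ?_
  · linear_combination (norm := (noncomm_ring <;> norm_num [zsmul_eq_mul] <;> noncomm_ring)) r42
  · linear_combination (norm := (noncomm_ring <;> norm_num [zsmul_eq_mul] <;> noncomm_ring)) p2 + r02
  · linear_combination (norm := (noncomm_ring <;> norm_num [zsmul_eq_mul] <;> noncomm_ring)) q2 + r12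
  · linear_combination (norm := (noncomm_ring <;> norm_num [zsmul_eq_mul] <;> noncomm_ring)) r32
  · linear_combination (norm := (noncomm_ring <;> norm_num [zsmul_eq_mul] <;> noncomm_ring)) r43
  · linear_combination (norm := (noncomm_ring <;> norm_num [zsmul_eq_mul] <;> noncomm_ring)) r33
  · linear_combination (norm := (noncomm_ring <;> norm_num [zsmul_eq_mul] <;> noncomm_ring)) r11
  · linear_combination (norm := (noncomm_ring <;> norm_num [zsmul_eq_mul] <;> noncomm_ring)) r41
  · linear_combination (norm := (noncomm_ring <;> norm_num [zsmul_eq_mul] <;> noncomm_ring)) r21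
  · linear_combination (norm := (noncomm_ring <;> norm_num [zsmul_eq_mul] <;> noncomm_ring)) r31
  · linear_combination (norm := (noncomm_ring <;> norm_num [zsmul_eq_mul] <;> noncomm_ring)) r01
  · linear_combination (norm := (noncomm_ring <;> norm_num [zsmul_eq_mul] <;> noncomm_ring)) p1

/-- pattern with minus signs at `1` and `-1` -/
theorem case_two {Y : ZMod 5 → R} (h : Five Y) (t2 : ∀ r : R, 2 * r = 0 → r = 0) (x u : R)
    (hxu : x * u = 1) (hux : u * x = 1) (s : ZMod 5 → ℤ)
    (hs : s 0 = 1 ∧ s 1 = -1 ∧ s 2 = 1 ∧ s 3 = 1 ∧ s 4 = -1)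
    (Q : ∀ j, 1 + (s j : R) * (x * Y j) + x * Y j * (x * Y j) + (s j : R) * (Y (-j) * u) +
      Y (-j) * u * (Y (-j) * u) = 0) :
    (1 : R) = 0 := by
  have hX := cmp_sum h x
  have hU := cmp_sum h u
  have ha := cmp_typ h 1 x
  have hb := cmp_typ h 4 x
  have hc := cmp_typ h 2 x
  have hd := cmp_typ h 3 x
  have ha' := cmp_typ h 1 u
  have hb' := cmp_typ h 4 u
  have hc' := cmp_typ h 2 u
  have hd' := cmp_typ h 3 u
  generalize cmp Y 1 x = a at *
  generalize cmp Y 4 x = b at *
  generalize cmp Y 2 x = c at *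
  generalize cmp Y 3 x = d at *
  generalize cmp Y 1 u = a' at *
  generalize cmp Y 4 u = b' at *
  generalize cmp Y 2 u = c' at *
  generalize cmp Y 3 u = d' at *
  have n5 : ∀ w : R, w * 5 = 5 * w := fun w => (Nat.cast_commute 5 w).eq.symm
  have hG : Typ Y 1 (1 : R) := by intro k; rw [one_mul, mul_one, one_mul]
  obtain ⟨E, hEdef⟩ : ∃ E, E = -2 * (Y 1 + Y 4) := ⟨_, rfl⟩
  have y11 : Y 1 * Y 1 = Y 2 := by rw [← h.add]; rfl
  have y14 : Y 1 * Y 4 = 1 := by rw [← h.add, ← h.zero]; rfl
  have y41 : Y 4 * Y 1 = 1 := by rw [← h.add, ← h.zero]; rfl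
  have y44 : Y 4 * Y 4 = Y 3 := by rw [← h.add]; rfl
  have y12 : Y 1 * Y 2 = Y 3 := by rw [← h.add]; rfl
  have y13 : Y 1 * Y 3 = Y 4 := by rw [← h.add]; rfl
  have y42 : Y 4 * Y 2 = Y 1 := by rw [← h.add]; rfl
  have y43 : Y 4 * Y 3 = Y 2 := by rw [← h.add]; rfl
  have y21 : Y 2 * Y 1 = Y 3 := by rw [← h.add]; rfl
  have y31 : Y 3 * Y 1 = Y 4 := by rw [← h.add]; rfl
  have y24 : Y 2 * Y 4 = Y 1 := by rw [← h.add]; rfl
  have y34 : Y 3 * Y 4 = Y 2 := by rw [← h.add]; rfl
  have hsum := h.sum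
  rw [h.zero] at hsum
  have hE : E * E = 2 * E + 4 := by
    rw [hEdef]
    linear_combination (norm := (noncomm_ring <;> norm_num [zsmul_eq_mul] <;> noncomm_ring)) 4 * (y11 + y14 + y41 + y44) + 4 * hsum
  have hEt : Typ Y 1 E := by
    intro k
    rw [hEdef, one_mul]
    have e1 : Y 1 * Y k = Y k * Y 1 := by rw [← h.add, ← h.add, add_comm]
    have e4 : Y 4 * Y k = Y k * Y 4 := by rw [← h.add, ← h.add, add_comm]
    linear_combination (norm := (noncomm_ring <;> norm_num [zsmul_eq_mul] <;> noncomm_ring)) (-2 : R) * (e1 + e4)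
  have hFt : Typ Y 1 (2 - E) := by
    intro k
    have := hEt k
    rw [one_mul] at this ⊢
    linear_combination (norm := (noncomm_ring <;> norm_num [zsmul_eq_mul] <;> noncomm_ring)) (-1 : R) * this
  have hcE : ∀ w, Typ Y 2 w → w * E = (2 - E) * w := by
    intro w hw
    have e1 := hw 1
    have e4 := hw 4
    rw [show (2 : ZMod 5) * 1 = 2 from rfl] at e1
    rw [show (2 : ZMod 5) * 4 = 3 from rfl] at e4
    rw [hEdef]
    linear_combination (norm := (noncomm_ring <;> norm_num [zsmul_eq_mul] <;> noncomm_ring)) (-2 : R) * (e1 + e4) - 2 * (hsum * w)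
  have hdE : ∀ w, Typ Y 3 w → w * E = (2 - E) * w := by
    intro w hw
    have e1 := hw 1
    have e4 := hw 4
    rw [show (3 : ZMod 5) * 1 = 3 from rfl] at e1
    rw [show (3 : ZMod 5) * 4 = 2 from rfl] at e4
    rw [hEdef]
    linear_combination (norm := (noncomm_ring <;> norm_num [zsmul_eq_mul] <;> noncomm_ring)) (-2 : R) * (e1 + e4) - 2 * (hsum * w)
  have ht : ∀ j, Y (0 * j) * 1 + Y (1 * j) * E + Y (4 * j) * E + Y (2 * j) * (2 - E) +
      Y (3 * j) * (2 - E) = 5 * (s j : R) := by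
    obtain ⟨s0, s1, s2, s3, s4⟩ := hs
    intro j
    fin_cases j
    · show Y 0 * 1 + Y 0 * E + Y 0 * E + Y 0 * (2 - E) + Y 0 * (2 - E) = 5 * ((s 0 : ℤ) : R)
      rw [s0, h.zero]
      push_cast
      noncomm_ring
    · show Y 0 * 1 + Y 1 * E + Y 4 * E + Y 2 * (2 - E) + Y 3 * (2 - E) = 5 * ((s 1 : ℤ) : R)
      rw [s1, h.zero, hEdef]
      push_cast
      linear_combination (norm := (noncomm_ring <;> norm_num [zsmul_eq_mul] <;> noncomm_ring)) (-2 : R) * (y11 + y14 + y41 + y44) +
        2 * (y21 + y24 + y31 + y34) + 2 * hsum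
    · show Y 0 * 1 + Y 2 * E + Y 3 * E + Y 4 * (2 - E) + Y 1 * (2 - E) = 5 * ((s 2 : ℤ) : R)
      rw [s2, h.zero, hEdef]
      push_cast
      linear_combination (norm := (noncomm_ring <;> norm_num [zsmul_eq_mul] <;> noncomm_ring)) (-2 : R) * (y21 + y24 + y31 + y34) +
        2 * (y41 + y44 + y11 + y14)
    · show Y 0 * 1 + Y 3 * E + Y 2 * E + Y 1 * (2 - E) + Y 4 * (2 - E) = 5 * ((s 3 : ℤ) : R)
      rw [s3, h.zero, hEdef]
      push_cast
      linear_combination (norm := (noncomm_ring <;> norm_num [zsmul_eq_mul] <;> noncomm_ring)) (-2 : R) * (y21 + y24 + y31 + y34) +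
        2 * (y41 + y44 + y11 + y14)
    · show Y 0 * 1 + Y 4 * E + Y 1 * E + Y 3 * (2 - E) + Y 2 * (2 - E) = 5 * ((s 4 : ℤ) : R)
      rw [s4, h.zero, hEdef]
      push_cast
      linear_combination (norm := (noncomm_ring <;> norm_num [zsmul_eq_mul] <;> noncomm_ring)) (-2 : R) * (y11 + y14 + y41 + y44) +
        2 * (y21 + y24 + y31 + y34) + 2 * hsum
  have rel := relations h ha hb hc hd ha' hb' hc' hd' hEt hFt hG (by
    intro j
    rw [hX, hU, ht j]
    have := congrArg (fun z => 25 * z) (Q j)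
    simp only [mul_zero] at this
    rw [← this]
    have ns : ∀ w : R, w * (s j : R) = (s j : R) * w := fun w => (Int.cast_commute (s j) w).eq.symm
    have e1 : 5 * x * Y j * (5 * x * Y j) = 25 * (x * Y j * (x * Y j)) := by
      have : x * Y j * (5 * (x * Y j)) = 5 * (x * Y j * (x * Y j)) := by
        rw [← mul_assoc, n5, mul_assoc]
      rw [mul_assoc 5, mul_assoc 5, this, ← mul_assoc]; norm_num
    have e2 : Y (-j) * (5 * u) = 5 * (Y (-j) * u) := by rw [← mul_assoc, n5, mul_assoc]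
    have e3 : 5 * (Y (-j) * u) * (5 * (Y (-j) * u)) = 25 * (Y (-j) * u * (Y (-j) * u)) := by
      have : (Y (-j) * u) * (5 * (Y (-j) * u)) = 5 * (Y (-j) * u * (Y (-j) * u)) := by
        rw [← mul_assoc, n5, mul_assoc]
      rw [mul_assoc 5, this, ← mul_assoc]; norm_num
    have e4 : 5 * (s j : R) * (5 * x * Y j) = 25 * ((s j : R) * (x * Y j)) := by
      rw [mul_assoc 5 x, mul_assoc 5 (s j : R), ← mul_assoc (s j : R) 5, n5, mul_assoc 5 (s j : R),
        ← mul_assoc 5 5]; norm_num
    have e5 : 5 * (s j : R) * (5 * (Y (-j) * u)) = 25 * ((s j : R) * (Y (-j) * u)) := by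
      rw [mul_assoc 5 (s j : R), ← mul_assoc (s j : R) 5, n5, mul_assoc 5 (s j : R),
        ← mul_assoc 5 5]; norm_num
    rw [e1, e2, e3, e4, e5]
    simp only [mul_add]
    norm_num)
  obtain ⟨r01, r02, r03, r04, r11, r12, r13, r14, r21, r22, r23, r24, r31, r32, r33, r34, r41, r42,
    r43, r44⟩ := rel
  have hbb : b' = -b := by
    rw [one_mul, one_mul] at r44
    rw [eq_neg_iff_add_eq_zero, add_comm, r44]
  subst hbb
  have hp1 := prods h ha hb hc hd ha' hb' hc' hd' (by
    rw [hX, hU, mul_assoc, ← mul_assoc x, n5, mul_assoc 5 x, hxu, mul_one]; norm_num)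
  have hp2 := prods h ha' hb' hc' hd' ha hb hc hd (by
    rw [hX, hU, mul_assoc, ← mul_assoc u, n5, mul_assoc 5 u, hux, mul_one]; norm_num)
  obtain ⟨p1, p2, p3⟩ := hp1
  obtain ⟨q1, q2, -⟩ := hp2
  have caE : ∀ w, Typ Y 1 w → w * E = E * w := by
    intro w hw
    have e1 := hw 1
    have e4 := hw 4
    rw [one_mul] at e1 e4
    rw [hEdef]
    linear_combination (norm := (noncomm_ring <;> norm_num [zsmul_eq_mul] <;> noncomm_ring)) (-2 : R) * (e1 + e4)
  have hca := caE a ha
  have hca' := caE a' ha'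
  have hcc := hcE c hc
  have hcc' := hcE c' hc'
  have hdd := hdE d hd
  have hdd' := hdE d' hd'
  refine case_two_abs t2 h.tf a a' b c c' d d' E hE hca hca' hcc hdd ?_ ?_ ?_ ?_ ?_ ?_ ?_ ?_ ?_ ?_
    ?_ ?_ ?_ ?_
  · linear_combination (norm := (noncomm_ring <;> norm_num [zsmul_eq_mul] <;> noncomm_ring)) r42 + hcc
  · linear_combination (norm := (noncomm_ring <;> norm_num [zsmul_eq_mul] <;> noncomm_ring)) r22 + hcc'
  · linear_combination (norm := (noncomm_ring <;> norm_num [zsmul_eq_mul] <;> noncomm_ring)) q2 + r12 + hcc'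
  · linear_combination (norm := (noncomm_ring <;> norm_num [zsmul_eq_mul] <;> noncomm_ring)) r32
  · linear_combination (norm := (noncomm_ring <;> norm_num [zsmul_eq_mul] <;> noncomm_ring)) r43
  · linear_combination (norm := (noncomm_ring <;> norm_num [zsmul_eq_mul] <;> noncomm_ring)) r33
  · linear_combination (norm := (noncomm_ring <;> norm_num [zsmul_eq_mul] <;> noncomm_ring)) p3 + r03 + hdd
  · linear_combination (norm := (noncomm_ring <;> norm_num [zsmul_eq_mul] <;> noncomm_ring)) r11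
  · linear_combination (norm := (noncomm_ring <;> norm_num [zsmul_eq_mul] <;> noncomm_ring)) r41
  · linear_combination (norm := (noncomm_ring <;> norm_num [zsmul_eq_mul] <;> noncomm_ring)) r21 + hca
  · linear_combination (norm := (noncomm_ring <;> norm_num [zsmul_eq_mul] <;> noncomm_ring)) r31 + hca'
  · linear_combination (norm := (noncomm_ring <;> norm_num [zsmul_eq_mul] <;> noncomm_ring)) r01
  · linear_combination (norm := (noncomm_ring <;> norm_num [zsmul_eq_mul] <;> noncomm_ring)) p1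
  · linear_combination (norm := (noncomm_ring <;> norm_num [zsmul_eq_mul] <;> noncomm_ring)) q1

end Q6.FreeAct
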