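import Mathlib
import Pool.Agent.Q6.FreeAct.Cases

/-!
# From free actions to the algebra
-/

set_option autoImplicit false

namespace Q6.FreeAct

/-- `G` acts freely on `V`: a nontrivial element has no nonzero fixed vector. -/
def IsFree (G V : Type*) [Group G] [AddCommGroup V] [DistribMulAction G V] : Prop :=
  ∀ g : G, g ≠ 1 → ∀ v : V, g • v = v → v = 0

section

variable {G V : Type*} [Group G] [AddCommGroup V] [DistribMulAction G V]

/-- the action as a homomorphism to the endomorphism ring -/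
noncomputable abbrev rho (G V : Type*) [Group G] [AddCommGroup V] [DistribMulAction G V] :
    G →* AddMonoid.End V := DistribMulAction.toAddMonoidEnd G V

theorem rho_apply (g : G) (v : V) : rho G V g v = g • v := rfl

theorem sum_pow {g : G} (hf : IsFree G V) (h5 : g ^ 5 = 1) (h1 : g ≠ 1) :
    1 + rho G V g + rho G V g ^ 2 + rho G V g ^ 3 + rho G V g ^ 4 = 0 := by
  ext v
  have hz : ∀ w : V, g • w - w = 0 → w = 0 := fun w hw => hf g h1 w (sub_eq_zero.1 hw)
  apply hz
  have e : (rho G V g - 1) * (1 + rho G V g + rho G V g ^ 2 + rho G V g ^ 3 + rho G V g ^ 4) = 0 := by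
    have : rho G V g ^ 5 = 1 := by rw [← map_pow, h5, map_one]
    linear_combination (norm := noncomm_ring) this
  have := DFunLike.congr_fun e v
  exact this

theorem no_five {g : G} (hf : IsFree G V) (h5 : g ^ 5 = 1) (h1 : g ≠ 1) (v : V)
    (hv : (5 : ℕ) • v = 0) : v = 0 := by
  have key : ∀ w : V, (rho G V g - 1) w = 0 → w = 0 := fun w hw =>
    hf g h1 w (sub_eq_zero.1 hw)
  have h := sum_pow hf h5 h1
  have e : (rho G V g - 1) * ((rho G V g - 1) * ((rho G V g - 1) * (rho G V g - 1))) =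
      (1 + rho G V g + rho G V g ^ 2 + rho G V g ^ 3 + rho G V g ^ 4) -
      (rho G V g ^ 3 - rho G V g ^ 2 + rho G V g) * 5 := by
    noncomm_ring
  have e5 : (5 : AddMonoid.End V) v = 0 := by
    have : (5 : AddMonoid.End V) v = (5 : ℕ) • v := AddMonoid.End.natCast_apply 5 v
    rw [this, hv]
  apply key; apply key; apply key; apply key
  have := DFunLike.congr_fun e v
  rw [h, zero_sub] at this
  refine this.trans ?_
  show -((rho G V g ^ 3 - rho G V g ^ 2 + rho G V g) ((5 : AddMonoid.End V) v)) = 0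
  rw [e5, map_zero, neg_zero]

theorem no_two {z : G} (hf : IsFree G V) (h2 : z ^ 2 = 1) (h1 : z ≠ 1) (v : V) : z • v = -v := by
  have : z • v + v = 0 := by
    apply hf z h1
    rw [smul_add, ← mul_smul, ← pow_two, h2, one_smul, add_comm]
  exact eq_neg_of_add_eq_zero_left this

theorem faithful [Nontrivial V] (hf : IsFree G V) {g h : G} (hgh : ∀ v : V, g • v = h • v) :
    g = h := by
  by_contra hne
  obtain ⟨v, hv⟩ := exists_ne (0 : V)
  refine hv (hf (h⁻¹ * g) (fun h1 => hne ?_) v ?_)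
  · rw [inv_mul_eq_one] at h1; exact h1.symm
  · rw [mul_smul, hgh, inv_smul_smul]

/-- powers indexed by `ZMod 5` -/
noncomputable def pw (G V : Type*) [Group G] [AddCommGroup V] [DistribMulAction G V] (y : G) :
    ZMod 5 → AddMonoid.End V := fun j => rho G V (y ^ j.val)

theorem pow_val {y : G} (hy : y ^ 5 = 1) (i j : ZMod 5) : y ^ (i + j).val = y ^ i.val * y ^ j.val := by
  rw [ZMod.val_add, ← pow_add]
  conv_rhs => rw [← Nat.div_add_mod (i.val + j.val) 5, pow_add, pow_mul, hy, one_pow, one_mul]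

theorem pow_neg_val {y : G} (hy : y ^ 5 = 1) (j : ZMod 5) : y ^ (-j).val = (y ^ j.val)⁻¹ := by
  have := pow_val hy (-j) j
  rw [neg_add_cancel] at this
  rw [eq_inv_iff_mul_eq_one, ← this]
  simp

theorem five_pw {y : G} (hf : IsFree G V) (hy : y ^ 5 = 1) (hy1 : y ≠ 1) : Five (pw G V y) where
  zero := by show rho G V (y ^ 0) = 1; rw [pow_zero, map_one]
  add i j := by simp only [pw, pow_val hy, map_mul]
  sum := by
    have := sum_pow hf hy hy1
    show rho G V (y ^ 0) + rho G V (y ^ 1) + rho G V (y ^ 2) + rho G V (y ^ 3) + rho G V (y ^ 4) = 0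
    rw [← this, pow_zero, map_one, pow_one, map_pow, map_pow, map_pow]
  tf r hr := by
    ext v
    apply no_five hf hy hy1
    have := DFunLike.congr_fun hr v
    have e : (5 * r) v = (5 : ℕ) • (r v) := AddMonoid.End.natCast_apply 5 (r v)
    rw [e] at this
    exact this

theorem phi_plus {w : G} (hf : IsFree G V) (h5 : w ^ 5 = 1) (h1 : w ≠ 1) :
    1 + rho G V w + rho G V w * rho G V w + rho G V w⁻¹ + rho G V w⁻¹ * rho G V w⁻¹ = 0 := by
  have h := sum_pow hf h5 h1
  have e4 : rho G V w⁻¹ = rho G V w ^ 4 := by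
    rw [← map_pow]; congr 1
    rw [inv_eq_iff_mul_eq_one, ← pow_succ', h5]
  have e3 : rho G V w⁻¹ * rho G V w⁻¹ = rho G V w ^ 3 := by
    rw [← map_pow, ← map_mul]; congr 1
    rw [← mul_inv_rev, inv_eq_iff_mul_eq_one, ← pow_two, ← pow_add, h5]
  rw [e3, e4, ← h]
  noncomm_ring

theorem phi_minus {w z : G} (hf : IsFree G V) (hz : ∀ v : V, z • v = -v) (h5 : (z * w) ^ 5 = 1)
    (h1 : z * w ≠ 1) :
    1 - rho G V w + rho G V w * rho G V w - rho G V w⁻¹ + rho G V w⁻¹ * rho G V w⁻¹ = 0 := by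
  have h := phi_plus hf h5 h1
  have e1 : rho G V (z * w) = -rho G V w := by
    ext v; show (z * w) • v = -(w • v); rw [mul_smul, hz]
  have hz' : ∀ v : V, z⁻¹ • v = -v := by
    intro v
    rw [inv_smul_eq_iff, smul_neg, hz, neg_neg]
  have e2 : rho G V (z * w)⁻¹ = -rho G V w⁻¹ := by
    ext v; show (z * w)⁻¹ • v = -(w⁻¹ • v); rw [mul_inv_rev, mul_smul, hz', smul_neg]
  rw [e1, e2] at h
  rw [← h]
  noncomm_ring

/-- not all products `x y ^ j` have order five -/
theorem lemA [Nontrivial V] (hf : IsFree G V) {x y : G} (hy : y ^ 5 = 1) (hxy : x * y ≠ y * x)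
    (h : ∀ j : ZMod 5, (x * y ^ j.val) ^ 5 = 1) : False := by
  have hy1 : y ≠ 1 := by rintro rfl; simp at hxy
  have hne : ∀ j : ZMod 5, x * y ^ j.val ≠ 1 := by
    intro j hj
    apply hxy
    rw [mul_eq_one_iff_eq_inv] at hj
    rw [hj]
    exact ((Commute.refl y).pow_left _).inv_left.eq
  have h5 := five_pw hf hy hy1
  have := case_zero h5 (rho G V x) (rho G V x⁻¹) (by rw [← map_mul]; simp only [mul_inv_cancel, inv_mul_cancel, map_one]) (by rw [← map_mul]; simp only [mul_inv_cancel, inv_mul_cancel, map_one])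
    (by
      intro j
      have := phi_plus hf (h j) (hne j)
      rw [mul_inv_rev, ← pow_neg_val hy, map_mul, map_mul] at this
      exact this)
  obtain ⟨v, hv⟩ := exists_ne (0 : V)
  exact hv (DFunLike.congr_fun this v)

/-- the other impossible pattern -/
theorem lemB [Nontrivial V] (hf : IsFree G V) {x y z : G} (hy : y ^ 5 = 1) (hxy : x * y ≠ y * x)
    (hzz : ∀ v : V, z • v = -v) (hz1 : z ≠ 1)
    (h0 : x ^ 5 = 1) (h1 : (z * (x * y)) ^ 5 = 1) (h2 : (x * y ^ 2) ^ 5 = 1)
    (h3 : (x * y ^ 3) ^ 5 = 1) (h4 : (z * (x * y ^ 4)) ^ 5 = 1) : False := by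
  have hy1 : y ≠ 1 := by rintro rfl; simp at hxy
  have hne : ∀ j : ℕ, x * y ^ j ≠ 1 := by
    intro j hj
    apply hxy
    rw [mul_eq_one_iff_eq_inv] at hj
    rw [hj]
    exact ((Commute.refl y).pow_left _).inv_left.eq
  have hzc : ∀ g : G, z * g = g * z := by
    intro g
    apply faithful hf
    intro v
    rw [mul_smul, mul_smul, hzz, hzz, smul_neg]
  have hne' : ∀ j : ℕ, z * (x * y ^ j) ≠ 1 := by
    intro j hj
    apply hxy
    have hx : x = z⁻¹ * (y ^ j)⁻¹ := by
      rw [mul_eq_one_iff_eq_inv, mul_inv_rev] at hj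
      rw [hj]; group
    have hc1 : Commute z⁻¹ y := (show Commute z y from hzc y).inv_left
    have hc2 : Commute ((y ^ j)⁻¹) y := ((Commute.refl y).pow_left _).inv_left
    rw [hx]
    exact (hc1.mul_left hc2).eq
  have h5 := five_pw hf hy hy1
  have t2 : ∀ r : AddMonoid.End V, 2 * r = 0 → r = 0 := by
    intro r hr
    ext v
    apply hf z hz1
    rw [hzz]
    have := DFunLike.congr_fun hr v
    have e : (2 * r) v = (2 : ℕ) • (r v) := AddMonoid.End.natCast_apply 2 (r v)
    rw [e, two_nsmul] at this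
    exact (eq_neg_of_add_eq_zero_left this).symm
  have := case_two h5 t2 (rho G V x) (rho G V x⁻¹) (by rw [← map_mul]; simp only [mul_inv_cancel, inv_mul_cancel, map_one])
    (by rw [← map_mul]; simp only [mul_inv_cancel, inv_mul_cancel, map_one]) ![1, -1, 1, 1, -1] ⟨rfl, rfl, rfl, rfl, rfl⟩
    (by
      have key : ∀ j : ZMod 5, ∀ s : ℤ, ((s = 1 ∧ (x * y ^ j.val) ^ 5 = 1) ∨
          (s = -1 ∧ (z * (x * y ^ j.val)) ^ 5 = 1)) →
          1 + (s : AddMonoid.End V) * (rho G V x * pw G V y j) +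
          rho G V x * pw G V y j * (rho G V x * pw G V y j) +
          (s : AddMonoid.End V) * (pw G V y (-j) * rho G V x⁻¹) +
          pw G V y (-j) * rho G V x⁻¹ * (pw G V y (-j) * rho G V x⁻¹) = 0 := by
        rintro j s (⟨rfl, h⟩ | ⟨rfl, h⟩)
        · have := phi_plus hf h (hne _)
          rw [mul_inv_rev, ← pow_neg_val hy, map_mul, map_mul] at this
          rw [Int.cast_one, one_mul, one_mul]
          exact this
        · have := phi_minus hf hzz h (hne' _)
          rw [mul_inv_rev, ← pow_neg_val hy, map_mul, map_mul] at this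
          rw [Int.cast_neg, Int.cast_one, neg_one_mul, neg_one_mul, ← sub_eq_add_neg,
            ← sub_eq_add_neg]
          exact this
      intro j
      fin_cases j
      · exact key 0 1 (Or.inl ⟨rfl, by rw [ZMod.val_zero, pow_zero, mul_one]; exact h0⟩)
      · exact key 1 (-1) (Or.inr ⟨rfl, by rw [show ZMod.val (1 : ZMod 5) = 1 from rfl, pow_one]; exact h1⟩)
      · exact key 2 1 (Or.inl ⟨rfl, h2⟩)
      · exact key 3 1 (Or.inl ⟨rfl, h3⟩)
      · exact key 4 (-1) (Or.inr ⟨rfl, h4⟩))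
  obtain ⟨v, hv⟩ := exists_ne (0 : V)
  exact hv (DFunLike.congr_fun this v)

end

end Q6.FreeAct
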