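import Mathlib
import Pool.Agent.Q6.FreeAct.Grp

/-!
# Elements of order five in groups acting freely
-/

set_option autoImplicit false

namespace Q6.FreeAct

section

variable {G V : Type*} [Group G] [AddCommGroup V] [DistribMulAction G V] [Nontrivial V]

/-- data of the central involution -/
structure Inv (G V : Type*) [Group G] [AddCommGroup V] [DistribMulAction G V] (z : G) : Prop where
  neg : ∀ v : V, z • v = -v
  ne : z ≠ 1
  sq : z * z = 1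
  comm : ∀ g : G, z * g = g * z
  dich : ∀ w : G, w ^ 10 = 1 → w ^ 5 = 1 ∨ (z * w) ^ 5 = 1
  not : ∀ w : G, w ^ 5 = 1 → (z * w) ^ 5 = 1 → False

theorem inv_of (hf : IsFree G V) {z : G} (h2 : z ^ 2 = 1) (h1 : z ≠ 1) : Inv G V z := by
  have hneg := no_two hf h2 h1
  have hc : ∀ g : G, z * g = g * z := by
    intro g
    apply faithful hf
    intro v
    rw [mul_smul, mul_smul, hneg, hneg, smul_neg]
  have hzz : z * z = 1 := by rw [← pow_two, h2]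
  have hz5 : z ^ 5 = z := by
    rw [show (5 : ℕ) = 2 * 2 + 1 from rfl, pow_add, pow_mul, h2, one_pow, one_mul, pow_one]
  have hm : ∀ w : G, (z * w) ^ 5 = z * w ^ 5 := by
    intro w
    rw [(show Commute z w from hc w).mul_pow, hz5]
  refine ⟨hneg, h1, hzz, hc, ?_, ?_⟩
  · intro w hw
    by_cases h : w ^ 5 = 1
    · exact Or.inl h
    · right
      have h3 : (w ^ 5) ^ 2 = 1 := by rw [← pow_mul]; exact hw
      have h4 := no_two hf h3 h
      have : w ^ 5 = z := faithful hf fun v => by rw [h4, hneg]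
      rw [hm, this, hzz]
  · intro w h3 h4
    rw [hm, h3, mul_one] at h4
    exact h1 h4

variable (hf : IsFree G V)

include hf in
theorem lemB' {z : G} (hz : Inv G V z) {x y : G} (hy : y ^ 5 = 1) (hxy : x * y ≠ y * x)
    (a i k : ℕ) (hk : k = 1 ∨ k = 2)
    (h0 : (z ^ a * (x * y ^ i)) ^ 5 = 1) (h1 : (z ^ (a + 1) * (x * y ^ (i + k))) ^ 5 = 1)
    (h2 : (z ^ a * (x * y ^ (i + 2 * k))) ^ 5 = 1) (h3 : (z ^ a * (x * y ^ (i + 3 * k))) ^ 5 = 1)
    (h4 : (z ^ (a + 1) * (x * y ^ (i + 4 * k))) ^ 5 = 1) : False := by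
  have hcz : ∀ g : G, Commute (z ^ a) g := fun g => (show Commute z g from hz.comm g).pow_left a
  have hyk : (y ^ k) ^ 5 = 1 := by rw [← pow_mul, mul_comm, pow_mul, hy, one_pow]
  refine lemB hf (x := z ^ a * (x * y ^ i)) (y := y ^ k) (z := z) hyk ?_ hz.neg hz.ne h0 ?_ ?_ ?_ ?_
  · intro hc
    apply hxy
    have hc1 : Commute (z ^ a * (x * y ^ i)) (y ^ k) := hc
    have hc2 : Commute x (y ^ k) := by
      have e : x = (z ^ a)⁻¹ * (z ^ a * (x * y ^ i)) * (y ^ i)⁻¹ := by group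
      rw [e]
      exact ((((hcz _).inv_left).mul_left hc1)).mul_left ((Commute.refl y).pow_pow i k).inv_left
    rcases hk with rfl | rfl
    · rw [pow_one] at hc2; exact hc2.eq
    · have : (y ^ 2) ^ 3 = y := by
        rw [← pow_mul, show 2 * 3 = 5 + 1 from rfl, pow_add, hy, one_mul, pow_one]
      have hc3 := hc2.pow_right 3
      rw [this] at hc3
      exact hc3.eq
  · rw [show z * (z ^ a * (x * y ^ i) * y ^ k) = z ^ (a + 1) * (x * y ^ (i + k)) by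
      rw [pow_succ', pow_add]; simp only [mul_assoc]]
    exact h1
  · rw [show z ^ a * (x * y ^ i) * (y ^ k) ^ 2 = z ^ a * (x * y ^ (i + 2 * k)) by
      rw [← pow_mul, pow_add, mul_comm k 2]; simp only [mul_assoc]]
    exact h2
  · rw [show z ^ a * (x * y ^ i) * (y ^ k) ^ 3 = z ^ a * (x * y ^ (i + 3 * k)) by
      rw [← pow_mul, pow_add, mul_comm k 3]; simp only [mul_assoc]]
    exact h3
  · rw [show z * (z ^ a * (x * y ^ i) * (y ^ k) ^ 4) = z ^ (a + 1) * (x * y ^ (i + 4 * k)) by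
      rw [← pow_mul, pow_succ', pow_add, mul_comm k 4]; simp only [mul_assoc]]
    exact h4

include hf in
/-- exactly one or all of the four products have the minus sign -/
theorem type1 {z : G} (hz : Inv G V z) (H : ∀ g h : G, g ^ 5 = 1 → h ^ 5 = 1 → (g * h) ^ 10 = 1)
    {x y : G} (hx : x ^ 5 = 1) (hy : y ^ 5 = 1) (hxy : x * y ≠ y * x) (q : ℕ → ℕ → Prop)
    (hq : ∀ a j, q a j ↔ (z ^ a * (x * y ^ j)) ^ 5 = 1) :
    (q 1 1 ∧ q 0 2 ∧ q 0 3 ∧ q 0 4) ∨ (q 0 1 ∧ q 1 2 ∧ q 0 3 ∧ q 0 4) ∨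
    (q 0 1 ∧ q 0 2 ∧ q 1 3 ∧ q 0 4) ∨ (q 0 1 ∧ q 0 2 ∧ q 0 3 ∧ q 1 4) ∨
    (q 1 1 ∧ q 1 2 ∧ q 1 3 ∧ q 1 4) := by
  have hd : ∀ j, q 0 j ∨ q 1 j := by
    intro j
    rw [hq, hq, pow_zero, one_mul, pow_one]
    apply hz.dich
    apply H x (y ^ j) hx
    rw [← pow_mul, mul_comm, pow_mul, hy, one_pow]
  have h5 : ∀ a j, q a (j + 5) ↔ q a j := by
    intro a j
    rw [hq, hq, pow_add, hy, mul_one]
  have h2 : ∀ a j, q (a + 2) j ↔ q a j := by
    intro a j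
    rw [hq, hq, pow_add, pow_two, hz.sq, mul_one]
  have h00 : q 0 0 := by rw [hq]; simpa using hx
  have B : ∀ a i k : ℕ, (k = 1 ∨ k = 2) → q a i → q (a + 1) (i + k) → q a (i + 2 * k) →
      q a (i + 3 * k) → q (a + 1) (i + 4 * k) → False := by
    intro a i k hk b0 b1 b2 b3 b4
    rw [hq] at b0 b1 b2 b3 b4
    exact lemB' hf hz hy hxy a i k hk b0 b1 b2 b3 b4
  rcases hd 1 with p1 | p1 <;> rcases hd 2 with p2 | p2 <;> rcases hd 3 with p3 | p3 <;>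
    rcases hd 4 with p4 | p4
  · -- none
    exfalso
    rw [hq] at h00 p1 p2 p3 p4
    rw [pow_zero, one_mul] at h00 p1 p2 p3 p4
    refine lemA hf hy hxy (fun j => ?_)
    fin_cases j
    · exact h00
    · exact p1
    · exact p2
    · exact p3
    · exact p4
  · exact Or.inr (Or.inr (Or.inr (Or.inl ⟨p1, p2, p3, p4⟩)))
  · exact Or.inr (Or.inr (Or.inl ⟨p1, p2, p3, p4⟩))
  · exact (B 0 1 2 (Or.inr rfl) p1 p3 ((h5 0 0).2 h00) ((h5 0 2).2 p2) ((h5 1 4).2 p4)).elim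
  · exact Or.inr (Or.inl ⟨p1, p2, p3, p4⟩)
  · exact (B 0 3 1 (Or.inl rfl) p3 p4 ((h5 0 0).2 h00) ((h5 0 1).2 p1) ((h5 1 2).2 p2)).elim
  · exact (B 0 0 2 (Or.inr rfl) h00 p2 p4 ((h5 0 1).2 p1) ((h5 1 3).2 p3)).elim
  · -- M = {2,3,4}
    exact (B 1 3 2 (Or.inr rfl) p3 ((h2 0 5).2 ((h5 0 0).2 h00)) ((h5 1 2).2 p2) ((h5 1 4).2 p4)
      ((h2 0 11).2 ((h5 0 6).2 ((h5 0 1).2 p1)))).elim
  · exact Or.inl ⟨p1, p2, p3, p4⟩
  · exact (B 0 0 1 (Or.inl rfl) h00 p1 p2 p3 p4).elim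
  · exact (B 0 2 1 (Or.inl rfl) p2 p3 p4 ((h5 0 0).2 h00) ((h5 1 1).2 p1)).elim
  · -- M = {1,3,4}
    exact (B 1 1 1 (Or.inl rfl) p1 ((h2 0 2).2 p2) p3 p4 ((h2 0 5).2 ((h5 0 0).2 h00))).elim
  · exact (B 0 4 2 (Or.inr rfl) p4 ((h5 1 1).2 p1) ((h5 0 3).2 p3) ((h5 0 5).2 ((h5 0 0).2 h00))
      ((h5 1 7).2 ((h5 1 2).2 p2))).elim
  · -- M = {1,2,4}
    exact (B 1 4 1 (Or.inl rfl) p4 ((h2 0 5).2 ((h5 0 0).2 h00)) ((h5 1 1).2 p1) ((h5 1 2).2 p2)
      ((h2 0 8).2 ((h5 0 3).2 p3))).elim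
  · -- M = {1,2,3}
    exact (B 1 2 2 (Or.inr rfl) p2 ((h2 0 4).2 p4) ((h5 1 1).2 p1) ((h5 1 3).2 p3)
      ((h2 0 10).2 ((h5 0 5).2 ((h5 0 0).2 h00)))).elim
  · exact Or.inr (Or.inr (Or.inr (Or.inr ⟨p1, p2, p3, p4⟩)))

theorem conj_pow5 {g h : G} (h1 : (g * h) ^ 5 = 1) : (h * g) ^ 5 = 1 := by
  have : h * g = h * (g * h) * h⁻¹ := by group
  rw [this, conj_pow, h1]; group

include hf in
/-- elements of order dividing five commute -/
theorem contra (H : ∀ g h : G, g ^ 5 = 1 → h ^ 5 = 1 → (g * h) ^ 10 = 1)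
    {x y : G} (hx : x ^ 5 = 1) (hy : y ^ 5 = 1) (hxy : x * y ≠ y * x) : False := by
  obtain ⟨j, hj⟩ : ∃ j : ZMod 5, (x * y ^ j.val) ^ 5 ≠ 1 := by
    by_contra hcon
    push Not at hcon
    exact lemA hf hy hxy hcon
  have hy5 : ∀ n : ℕ, (y ^ n) ^ 5 = 1 := fun n => by
    rw [← pow_mul, mul_comm, pow_mul, hy, one_pow]
  have hz : Inv G V ((x * y ^ j.val) ^ 5) :=
    inv_of hf (by rw [← pow_mul]; exact H _ _ hx (hy5 _)) hj
  generalize (x * y ^ j.val) ^ 5 = z at hz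
  have hcz : ∀ g : G, Commute z g := fun g => hz.comm g
  -- step a
  obtain ⟨x0, hx0, hx0y, hM⟩ : ∃ x0 : G, x0 ^ 5 = 1 ∧ x0 * y ≠ y * x0 ∧
      ∀ i, i = 1 ∨ i = 2 ∨ i = 3 ∨ i = 4 → (z * (x0 * y ^ i)) ^ 5 = 1 := by
    have key : ∀ i0 : ℕ, (z * (x * y ^ i0)) ^ 5 = 1 →
        (∀ i, i = 1 ∨ i = 2 ∨ i = 3 ∨ i = 4 → (x * y ^ (i0 + i)) ^ 5 = 1) →
        ∃ x0 : G, x0 ^ 5 = 1 ∧ x0 * y ≠ y * x0 ∧
      ∀ i, i = 1 ∨ i = 2 ∨ i = 3 ∨ i = 4 → (z * (x0 * y ^ i)) ^ 5 = 1 := by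
      intro i0 h1 h2
      refine ⟨z * (x * y ^ i0), h1, ?_, ?_⟩
      · intro hc
        apply hxy
        have hc1 : Commute (z * (x * y ^ i0)) y := hc
        have e : x = z⁻¹ * (z * (x * y ^ i0)) * (y ^ i0)⁻¹ := by group
        rw [e]
        exact ((((hcz y).inv_left).mul_left hc1).mul_left
          (((Commute.refl y).pow_left i0).inv_left)).eq
      · intro i hi
        have e : z * (z * (x * y ^ i0) * y ^ i) = x * y ^ (i0 + i) := by
          rw [pow_add]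
          calc z * (z * (x * y ^ i0) * y ^ i) = (z * z) * (x * (y ^ i0 * y ^ i)) := by
                simp only [mul_assoc]
            _ = _ := by rw [hz.sq, one_mul]
        rw [e]
        exact h2 i hi
    have h5 : ∀ j : ℕ, (x * y ^ (j + 5)) = x * y ^ j := by
      intro j
      rw [pow_add, hy, mul_one]
    rcases type1 hf hz H hx hy hxy (fun a j => (z ^ a * (x * y ^ j)) ^ 5 = 1)
      (fun _ _ => Iff.rfl) with h | h | h | h | h <;>
      simp only [pow_zero, one_mul, pow_one z] at h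
    · obtain ⟨a1, a2, a3, a4⟩ := h
      refine key 1 a1 ?_
      rintro i (rfl | rfl | rfl | rfl)
      · exact a2
      · exact a3
      · exact a4
      · rw [show 1 + 4 = 0 + 5 from rfl, h5, pow_zero, mul_one]; exact hx
    · obtain ⟨a1, a2, a3, a4⟩ := h
      refine key 2 a2 ?_
      rintro i (rfl | rfl | rfl | rfl)
      · exact a3
      · exact a4
      · rw [show 2 + 3 = 0 + 5 from rfl, h5, pow_zero, mul_one]; exact hx
      · rw [show 2 + 4 = 1 + 5 from rfl, h5]; exact a1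
    · obtain ⟨a1, a2, a3, a4⟩ := h
      refine key 3 a3 ?_
      rintro i (rfl | rfl | rfl | rfl)
      · exact a4
      · rw [show 3 + 2 = 0 + 5 from rfl, h5, pow_zero, mul_one]; exact hx
      · rw [show 3 + 3 = 1 + 5 from rfl, h5]; exact a1
      · rw [show 3 + 4 = 2 + 5 from rfl, h5]; exact a2
    · obtain ⟨a1, a2, a3, a4⟩ := h
      refine key 4 a4 ?_
      rintro i (rfl | rfl | rfl | rfl)
      · rw [show 4 + 1 = 0 + 5 from rfl, h5, pow_zero, mul_one]; exact hx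
      · rw [show 4 + 2 = 1 + 5 from rfl, h5]; exact a1
      · rw [show 4 + 3 = 2 + 5 from rfl, h5]; exact a2
      · rw [show 4 + 4 = 3 + 5 from rfl, h5]; exact a3
    · obtain ⟨a1, a2, a3, a4⟩ := h
      refine ⟨x, hx, hxy, ?_⟩
      rintro i (rfl | rfl | rfl | rfl)
      · exact a1
      · exact a2
      · exact a3
      · exact a4
  have m1 := hM 1 (Or.inl rfl)
  have m2 := hM 2 (Or.inr (Or.inl rfl))
  have m4 := hM 4 (Or.inr (Or.inr (Or.inr rfl)))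
  rw [pow_one] at m1
  have ey : y ^ 4 = y⁻¹ := by rw [eq_inv_iff_mul_eq_one, ← pow_succ, hy]
  have ex : x0 ^ 4 = x0⁻¹ := by rw [eq_inv_iff_mul_eq_one, ← pow_succ, hx0]
  have ex3 : x0 ^ 3 = x0⁻¹ * x0⁻¹ := by
    rw [← mul_inv_rev, eq_inv_iff_mul_eq_one, ← pow_two, ← pow_add, hx0]
  have ezi : z⁻¹ = z := by rw [inv_eq_iff_mul_eq_one, hz.sq]
  -- step b
  have c1 : (z * (y ^ 4 * x0)) ^ 5 = 1 := by
    have : (x0 * (y ^ 4 * z)) ^ 5 = 1 := by
      rw [← mul_assoc, ← (hcz (x0 * y ^ 4)).eq]; exact m4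
    have := conj_pow5 this
    rwa [← (hcz (y ^ 4)).eq, mul_assoc] at this
  have c4 : (z * (y ^ 4 * x0 ^ 4)) ^ 5 = 1 := by
    have : (z * (y ^ 4 * x0 ^ 4)) = (z * (x0 * y))⁻¹ := by
      rw [mul_inv_rev, mul_inv_rev, ezi, ey, ex, (hcz (y⁻¹ * x0⁻¹)).eq]
    rw [this, inv_pow, m1, inv_one]
  have hyx : y ^ 4 * x0 ≠ x0 * y ^ 4 := by
    intro hc
    apply hx0y
    have hc1 : Commute (y ^ 4) x0 := hc
    rw [ey] at hc1
    have := hc1.inv_left
    rw [inv_inv] at this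
    exact this.eq.symm
  have c3 : (z * (y ^ 4 * x0 ^ 3)) ^ 5 = 1 := by
    rcases type1 hf hz H (hy5 4) hx0 hyx (fun a j => (z ^ a * (y ^ 4 * x0 ^ j)) ^ 5 = 1)
      (fun _ _ => Iff.rfl) with h | h | h | h | h <;>
      simp only [pow_zero, one_mul, pow_one] at h
    · exact (hz.not _ h.2.2.2 c4).elim
    · exact (hz.not _ h.1 c1).elim
    · exact (hz.not _ h.1 c1).elim
    · exact (hz.not _ h.1 c1).elim
    · exact h.2.2.1
  -- step c
  have hxi : (x0⁻¹) ^ 5 = 1 := by rw [inv_pow, hx0, inv_one]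
  have hne : x0⁻¹ * (z * (x0 * y)) ≠ (z * (x0 * y)) * x0⁻¹ := by
    intro hc
    apply hx0y
    have hc1 : Commute (x0⁻¹) (z * (x0 * y)) := hc
    have hc2 := hc1.inv_left
    rw [inv_inv] at hc2
    have hc3 : Commute x0 (x0⁻¹ * (z⁻¹ * (z * (x0 * y)))) :=
      ((Commute.refl x0).inv_right).mul_right ((hcz x0).symm.inv_right.mul_right hc2)
    have e : x0⁻¹ * (z⁻¹ * (z * (x0 * y))) = y := by group
    rw [e] at hc3
    exact hc3.eq
  have e1 : x0⁻¹ * (z * (x0 * y)) ^ 1 = z * y := by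
    rw [pow_one, ← mul_assoc, ← (hcz x0⁻¹).eq, mul_assoc, inv_mul_cancel_left]
  have e2 : x0⁻¹ * (z * (x0 * y)) ^ 2 = y * (x0 * y) := by
    rw [(hcz (x0 * y)).mul_pow, pow_two z, hz.sq, one_mul, pow_two, mul_assoc, inv_mul_cancel_left]
  have e4 : x0⁻¹ * (z * (x0 * y)) ^ 4 = x0⁻¹ * (z * (y ^ 4 * x0⁻¹)) := by
    have : (z * (x0 * y)) ^ 4 = (z * (x0 * y))⁻¹ := by
      rw [eq_inv_iff_mul_eq_one, ← pow_succ, m1]
    rw [this, mul_inv_rev, mul_inv_rev, ezi, ey, (hcz (y⁻¹ * x0⁻¹)).eq]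
  have M1 : (z * (x0⁻¹ * (z * (x0 * y)) ^ 1)) ^ 5 = 1 := by
    rw [e1, ← mul_assoc, hz.sq, one_mul, hy]
  have M2 : (z * (x0⁻¹ * (z * (x0 * y)) ^ 2)) ^ 5 = 1 := by
    rw [e2]
    have : ((z * (x0 * y)) * y) ^ 5 = 1 := by
      rw [mul_assoc, mul_assoc, ← pow_two]; exact m2
    have := conj_pow5 this
    rwa [← mul_assoc, ← (hcz y).eq, mul_assoc] at this
  have P4 : (x0⁻¹ * (z * (x0 * y)) ^ 4) ^ 5 = 1 := by
    rw [e4]
    apply conj_pow5
    rw [mul_assoc, mul_assoc, ← ex3]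
    exact c3
  rcases type1 hf hz H hxi m1 hne (fun a j => (z ^ a * (x0⁻¹ * (z * (x0 * y)) ^ j)) ^ 5 = 1)
      (fun _ _ => Iff.rfl) with h | h | h | h | h <;>
      simp only [pow_zero, one_mul, pow_one z] at h
  · exact hz.not _ h.2.1 M2
  · exact hz.not _ h.1 M1
  · exact hz.not _ h.1 M1
  · exact hz.not _ h.1 M1
  · exact hz.not _ P4 h.2.2.2

end

end Q6.FreeAct
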