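import Mathlib
import Pool.Agent.Q6.FreeAct.Main

/-!
# The subgroup of elements of order dividing five
-/

set_option autoImplicit false

namespace Q6.FreeAct

section

variable {G V : Type*} [Group G] [AddCommGroup V] [DistribMulAction G V] [Nontrivial V]

variable (hf : IsFree G V)

include hf in
/-- the elements of order dividing five form a normal subgroup -/
theorem exists_T (H : ∀ g h : G, g ^ 5 = 1 → h ^ 5 = 1 → (g * h) ^ 10 = 1) :
    ∃ T : Subgroup G, T.Normal ∧ ∀ g : G, g ∈ T ↔ g ^ 5 = 1 := by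
  have hc : ∀ x y : G, x ^ 5 = 1 → y ^ 5 = 1 → x * y = y * x := by
    intro x y hx hy
    by_contra hxy
    exact contra hf H hx hy hxy
  refine ⟨{ carrier := {g | g ^ 5 = 1}, mul_mem' := ?_, one_mem' := ?_, inv_mem' := ?_ },
    ⟨?_⟩, fun g => Iff.rfl⟩
  · intro a b ha hb
    show (a * b) ^ 5 = 1
    rw [(show Commute a b from hc a b ha hb).mul_pow, show a ^ 5 = 1 from ha,
      show b ^ 5 = 1 from hb, one_mul]
  · exact one_pow 5
  · intro a ha
    show a⁻¹ ^ 5 = 1
    rw [inv_pow, show a ^ 5 = 1 from ha, inv_one]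
  · intro n hn g
    show (g * n * g⁻¹) ^ 5 = 1
    rw [conj_pow, show n ^ 5 = 1 from hn, mul_one, mul_inv_cancel]

include hf in
/-- two commuting elements of order five generate a cyclic group -/
theorem mem_zpowers {x y : G} (hx : x ^ 5 = 1) (hy : y ^ 5 = 1) (hc : x * y = y * x)
    (hx1 : x ≠ 1) : y ∈ Subgroup.zpowers x := by
  by_contra hy'
  have hcc : Commute x y := hc
  have hy1 : y ≠ 1 := by rintro rfl; exact hy' (one_mem _)
  have hpow : ∀ j : ℕ, (y * x ^ j) ^ 5 = 1 := by
    intro j
    rw [(hcc.symm.pow_right j).mul_pow, hy, ← pow_mul, mul_comm, pow_mul, hx, one_pow, mul_one]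
  have hne : ∀ j : ℕ, y * x ^ j ≠ 1 := by
    intro j hj
    apply hy'
    rw [mul_eq_one_iff_eq_inv] at hj
    rw [hj]
    exact inv_mem (pow_mem (Subgroup.mem_zpowers x) j)
  have hF := sum_pow hf hx hx1
  have h0 := sum_pow hf (hpow 0) (hne 0)
  have h1 := sum_pow hf (hpow 1) (hne 1)
  have h2 := sum_pow hf (hpow 2) (hne 2)
  have h3 := sum_pow hf (hpow 3) (hne 3)
  have h4 := sum_pow hf (hpow 4) (hne 4)
  have hX : rho G V x ^ 5 = 1 := by rw [← map_pow, hx, map_one]
  have hcr : Commute (rho G V y) (rho G V x) := by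
    show rho G V y * rho G V x = rho G V x * rho G V y
    rw [← map_mul, ← map_mul, hc]
  have hexp : ∀ j k : ℕ, rho G V (y * x ^ j) ^ k = rho G V y ^ k * rho G V x ^ (j * k) := by
    intro j k
    rw [map_mul, map_pow, (hcr.pow_right j).mul_pow, ← pow_mul]
  have hred : ∀ j : ℕ, rho G V x ^ (j + 5) = rho G V x ^ j := by
    intro j; rw [pow_add, hX, mul_one]
  have e6 : rho G V x ^ 6 = rho G V x ^ 1 := hred 1
  have e8 : rho G V x ^ 8 = rho G V x ^ 3 := hred 3
  have e9 : rho G V x ^ 9 = rho G V x ^ 4 := hred 4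
  have e12 : rho G V x ^ 12 = rho G V x ^ 2 := (hred 7).trans (hred 2)
  have e16 : rho G V x ^ 16 = rho G V x ^ 1 := (hred 11).trans ((hred 6).trans e6)
  have h0' := h0
  have s : ∀ j : ℕ, rho G V (y * x ^ j) = rho G V y * rho G V x ^ j := by
    intro j; rw [map_mul, map_pow]
  rw [hexp, hexp, hexp, s] at h0 h1 h2 h3 h4
  norm_num only [zero_mul, one_mul, pow_zero, mul_one] at h0 h1 h2 h3 h4
  rw [e6, e8] at h2
  rw [e6, e9, e12] at h3
  rw [e8, e12, e16] at h4
  have five : (1 + 1 + 1 + 1 + 1 : AddMonoid.End V) = 0 := by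
    linear_combination (norm := noncomm_ring) h0 + h1 + h2 + h3 + h4
      - (rho G V y + rho G V y ^ 2 + rho G V y ^ 3 + rho G V y ^ 4) * hF
  obtain ⟨v, hv⟩ := exists_ne (0 : V)
  apply hv
  apply no_five hf hx hx1
  have := DFunLike.congr_fun five v
  have e : v + v + v + v + v = 0 := this
  rw [← e]
  abel

include hf in
/-- the elements of order dividing five form a normal subgroup of order one or five -/
theorem exists_T' (H : ∀ g h : G, g ^ 5 = 1 → h ^ 5 = 1 → (g * h) ^ 10 = 1) :
    ∃ T : Subgroup G, T.Normal ∧ IsCyclic T ∧ (Nat.card T = 1 ∨ Nat.card T = 5) ∧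
      ∀ g : G, g ∈ T ↔ g ^ 5 = 1 := by
  obtain ⟨T, hT, hm⟩ := exists_T hf H
  have hc : ∀ x y : G, x ^ 5 = 1 → y ^ 5 = 1 → x * y = y * x := by
    intro x y hx hy
    by_contra hxy
    exact contra hf H hx hy hxy
  by_cases h : ∃ x ∈ T, x ≠ 1
  · obtain ⟨x, hx, hx1⟩ := h
    have hx5 := (hm x).1 hx
    have e : T = Subgroup.zpowers x := by
      apply le_antisymm
      · intro y hy
        exact mem_zpowers hf hx5 ((hm y).1 hy) (hc _ _ hx5 ((hm y).1 hy)) hx1
      · rw [Subgroup.zpowers_le]; exact hx
    refine ⟨T, hT, ?_, Or.inr ?_, hm⟩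
    · rw [e]; infer_instance
    · rw [e, Nat.card_zpowers]
      have : Fact (Nat.Prime 5) := ⟨by norm_num⟩
      exact orderOf_eq_prime hx5 hx1
  · push Not at h
    have e : T = ⊥ := by
      rw [eq_bot_iff]
      intro x hx
      rw [Subgroup.mem_bot]
      exact h x hx
    refine ⟨T, hT, ?_, Or.inl ?_, hm⟩
    · rw [e]; infer_instance
    · rw [e]; exact Subgroup.card_bot

end

/-- a set of elements of a group whose image in a quotient by a finite normal subgroup generates
a finite group generates a finite group -/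
theorem finite_of_quotient {G : Type*} [Group G] (T : Subgroup G) [T.Normal] [Finite T]
    (S : Set G) (h : Finite (Subgroup.closure ((QuotientGroup.mk' T) '' S))) :
    Finite (Subgroup.closure S) := by
  classical
  set f := QuotientGroup.mk' T with hfd
  have hmap : (Subgroup.closure S).map f = Subgroup.closure (f '' S) := by
    rw [MonoidHom.map_closure]
  have hfin : ((Subgroup.closure S : Subgroup G) : Set G).Finite := by
    have h1 : ((Subgroup.closure (f '' S) : Subgroup (G ⧸ T)) : Set (G ⧸ T)).Finite :=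
      Set.toFinite _
    have h2 : (f ⁻¹' ((Subgroup.closure (f '' S) : Subgroup (G ⧸ T)) : Set (G ⧸ T))).Finite := by
      apply Set.Finite.preimage' h1
      intro b _
      obtain ⟨g, rfl⟩ := QuotientGroup.mk'_surjective T b
      have h3 : f ⁻¹' {f g} = (fun t : G => g * t) '' (T : Set G) := by
        ext a
        simp only [Set.mem_preimage, Set.mem_singleton_iff, Set.mem_image, SetLike.mem_coe]
        constructor
        · intro ha
          refine ⟨g⁻¹ * a, ?_, by group⟩
          have : f g = f a := ha.symm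
          exact QuotientGroup.eq.1 this
        · rintro ⟨t, ht, rfl⟩
          rw [map_mul]
          have : f t = 1 := (QuotientGroup.eq_one_iff t).2 ht
          rw [this, mul_one]
      rw [h3]
      exact (Set.toFinite (T : Set G)).image _
    refine h2.subset ?_
    intro a ha
    rw [Set.mem_preimage, ← hmap]
    exact Subgroup.mem_map_of_mem f ha
  exact hfin.to_subtype

end Q6.FreeAct
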